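import Pool.Agent.H75.ERG.Targets

/-!
# Distance of the mollified system to the invariant function
-/

set_option autoImplicit false

namespace Pool.Agent.H60.EG

open MeasureTheory Set Metric Filter Topology Pool.Agent.H93.BL
open Pool.Agent.H93.EN (av md rf chi gchi Bd Ml Nl Inv Agr sg VV Chart LS Phi)
open Pool.Agent.H93.EG (InvG Sm gN hN nrm)
open Pool.Agent.H75.ERG

theorem af (hH : T_HLN) (hNB : T_NB) (hPSI : T_PSI) (hBD : T_BDG) (hOMC : T_OMC) (hOMM : T_OMM)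
    (hU0 : Pool.Agent.H93.EN.T_U0) : T_AF := by
  classical
  obtain ⟨C, hC, hHL⟩ := hH
  obtain ⟨C0, hC0, hU⟩ := hU0
  refine ⟨C, hC, ?_⟩
  intro ι P κ Λ a L δ K F m hA x hx w hw
  obtain ⟨hpc, hpb, hp0, hp1, -⟩ := hPSI K hA.K1
  have hG : Measurable (Function.uncurry (cutG K F m)) :=
    hA.inv.meas.mul (hpc.measurable.comp hA.cost.meas)
  have hGb : ∀ y w, 0 ≤ cutG K F m y w ∧ cutG K F m y w ≤ 1 := by
    intro y w
    have h1 := hA.inv.bd y w
    have h2 := hpb (m y w)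
    exact ⟨mul_nonneg h1.1 h2.1, mul_le_one₀ h1.2 h2.1 h2.2⟩
  have hGo : ∀ y w, y ∉ P.Ω → cutG K F m y w = 0 := by
    intro y w hy
    unfold cutG
    rw [hA.inv.out y w hy, zero_mul]
  have hXb : Bd (XG P κ a (cutG K F m) x) := by
    rcases XG_cases P κ a hA.ls (cutG K F m) x hx with ⟨-, h⟩ | ⟨-, τ, -, h⟩
    · rw [h]
      exact ⟨measurable_const, fun _ _ => ⟨le_rfl, zero_le_one⟩, 0, fun _ _ _ => rfl⟩
    · rw [h]
      exact hBD ι P _ hG hGb hGo τ
  have hom := (hOMM ι P F hA.inv δ hA.δ0).2 x w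
  by_cases hm : m x w < 2 ^ (K + 2)
  · rw [if_pos hm]
    have h1 := (hU _ hXb δ hA.δ0).2.2.2 x w
    have h2 := hA.inv.bd x w
    have h3 : |Ml (XG P κ a (cutG K F m) x) δ x w - F x w| ≤ 1 :=
      abs_le.2 ⟨by linarith [h1.1, h2.2], by linarith [h1.2.1, h2.1]⟩
    have h4 : 0 ≤ C * om P F δ x w := mul_nonneg hC.le hom.1
    linarith
  · rw [if_neg hm, add_zero]
    have hm' : 2 ^ (K + 2) ≤ m x w := not_lt.1 hm
    have h1K : (1 : ℝ) ≤ 2 ^ K := one_le_pow₀ (by norm_num)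
    have e2 : (2 : ℝ) ^ (K + 2) = 4 * 2 ^ K := by ring
    have e1 : (2 : ℝ) ^ (K + 1) = 2 * 2 ^ K := by ring
    have hd := hA.cost.le x w
    have hda : a < infDist x (VV P) := by
      have h5 : 4 ≤ infDist x (VV P) / a := by linarith
      rw [le_div_iff₀ hA.a0] at h5
      linarith [hA.a0]
    rcases XG_cases P κ a hA.ls (cutG K F m) x hx with ⟨h, -⟩ | ⟨-, τ, hch, h⟩
    · exact absurd hda (not_lt.2 h)
    rw [h] at hXb ⊢
    obtain ⟨h5, h6, -⟩ := hNB ι P κ Λ a L δ K F m hA x hx hda τ hch w hw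
    have h7 := (hHL _ hXb δ x w (F x w) hA.δ0).2
    have h8 : ∫ y in ball x δ, |Phi P (cutG K F m) τ y w - F x w| =
        ∫ y in ball x δ, |Phi P F τ y w - F x w| := by
      refine setIntegral_congr_ae measurableSet_ball ?_
      filter_upwards [h5] with y hy hyb
      have hy2 := (hy (ball_subset_ball (by linarith [hA.δ0]) hyb)).2
      have h9 := (abs_le.1 hy2).1
      rw [h6 y, hp1 _ (by rw [e1]; rw [e2] at hm'; linarith), mul_one]
    rw [h8] at h7
    have hδR : δ ≤ κ * infDist x (VV P) := by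
      have h9 := mul_lt_mul_of_pos_left hda hA.ls.1
      linarith [hA.h1, hA.δ0]
    have h10 := hOMC ι P F hA.inv x hx _ τ hch δ hA.δ0 hδR w
    refine h7.trans ?_
    calc C / δ ^ 2 * ∫ y in ball x δ, |Phi P F τ y w - F x w|
        = C * ((δ ^ 2)⁻¹ * ∫ y in ball x δ, |Phi P F τ y w - F x w|) := by
          rw [div_eq_mul_inv, mul_assoc]
      _ ≤ C * om P F δ x w := mul_le_mul_of_nonneg_left h10 hC.le

end Pool.Agent.H60.EG
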